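import Mathlib

set_option autoImplicit false

namespace Pool.Agent.Lib_MP_d5c33c_co

/-- A coherent configuration `(X, S)`: `S` is a partition of `X × X` into nonempty relations
(colors) such that the diagonal is a union of colors, the transpose of a color is a color, and
for all colors `a, b, c` the number of `z` with `(x, z) ∈ a` and `(z, y) ∈ b` is the same for
every `(x, y) ∈ c`. (`Setoid.IsPartition S` says that the empty set is not in `S` and that every
element of `X × X` lies in exactly one member of `S`.) -/
structure CoherentConfiguration (X : Type*) where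
  /-- the set of colors -/
  S : Set (Set (X × X))
  isPartition : Setoid.IsPartition S
  diagonal_union : ∃ T : Set (Set (X × X)), T ⊆ S ∧ ⋃₀ T = Set.diagonal X
  transpose_mem : ∀ a ∈ S, {e : X × X | (e.2, e.1) ∈ a} ∈ S
  coherent : ∀ a ∈ S, ∀ b ∈ S, ∀ c ∈ S, ∀ e ∈ c, ∀ f ∈ c,
    Nat.card {z : X // (e.1, z) ∈ a ∧ (z, e.2) ∈ b} =
      Nat.card {z : X // (f.1, z) ∈ a ∧ (z, f.2) ∈ b}

namespace CoherentConfiguration

variable {X : Type*}

theorem color_nonempty (C : CoherentConfiguration X) (c : C.S) : c.1.Nonempty := by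
  by_contra h
  rw [Set.not_nonempty_iff_eq_empty] at h
  exact C.isPartition.1 (h ▸ c.2)

/-- A pair belonging to the color `c`. -/
noncomputable def rep (C : CoherentConfiguration X) (c : C.S) : X × X :=
  (C.color_nonempty c).some

theorem rep_mem (C : CoherentConfiguration X) (c : C.S) : C.rep c ∈ c.1 :=
  (C.color_nonempty c).some_mem

/-- The intersection number `p^c_{ab}`: the number of `z` with `(x, z) ∈ a`, `(z, y) ∈ b`, for
a pair `(x, y) ∈ c` (it does not depend on the pair, see `p_eq`). -/
noncomputable def p (C : CoherentConfiguration X) (a b c : C.S) : ℕ :=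
  Nat.card {z : X // ((C.rep c).1, z) ∈ a.1 ∧ (z, (C.rep c).2) ∈ b.1}

/-- The valency `k_a`: the number of `y` with `(x, y) ∈ a`, for an `x` that has at least one such
`y` (it does not depend on `x`, see `k_eq`). -/
noncomputable def k (C : CoherentConfiguration X) (a : C.S) : ℕ :=
  Nat.card {y : X // ((C.rep a).1, y) ∈ a.1}

/-- The number written `∇̃^c_{ab} = √(k_c / (k_a k_b)) p^c_{ab}`. -/
noncomputable def nab (C : CoherentConfiguration X) (c a b : C.S) : ℝ :=
  Real.sqrt ((C.k c : ℝ) / ((C.k a : ℝ) * (C.k b : ℝ))) * (C.p a b c : ℝ)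

noncomputable instance [Finite X] (C : CoherentConfiguration X) : Fintype C.S :=
  Fintype.ofFinite _

/-- The matrix `O` with entries `O_{ab} = ∑_{p, q ∈ S} ∇̃^a_{pq} ∇̃^b_{pq}`. -/
noncomputable def O [Finite X] (C : CoherentConfiguration X) : Matrix C.S C.S ℝ :=
  fun a b => ∑ p : C.S, ∑ q : C.S, C.nab a p q * C.nab b p q

end CoherentConfiguration

end Pool.Agent.Lib_MP_d5c33c_co
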