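import Pool.Agent.Lib_MP_d5c33c_co.Defs

set_option autoImplicit false

namespace Pool.Agent.Lib_MP_d5c33c_co

namespace CoherentConfiguration

variable {X : Type*}

/-! ### Basic facts -/

theorem p_eq (C : CoherentConfiguration X) (a b c : C.S) {x y : X} (h : (x, y) ∈ c.1) :
    C.p a b c = Nat.card {z : X // (x, z) ∈ a.1 ∧ (z, y) ∈ b.1} :=
  C.coherent a.1 a.2 b.1 b.2 c.1 c.2 _ (C.rep_mem c) _ h

/-- The color of a pair. -/
noncomputable def col (C : CoherentConfiguration X) (x y : X) : C.S :=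
  ⟨(C.isPartition.2 (x, y)).choose, (C.isPartition.2 (x, y)).choose_spec.1.1⟩

theorem mem_col (C : CoherentConfiguration X) (x y : X) : (x, y) ∈ (C.col x y).1 :=
  (C.isPartition.2 (x, y)).choose_spec.1.2

theorem col_eq_iff (C : CoherentConfiguration X) (x y : X) (a : C.S) :
    C.col x y = a ↔ (x, y) ∈ a.1 := by
  constructor
  · rintro rfl
    exact C.mem_col x y
  · intro h
    have := (C.isPartition.2 (x, y)).choose_spec.2 a.1 ⟨a.2, h⟩
    exact Subtype.ext this.symm

theorem diag_of_mem (C : CoherentConfiguration X) {x y z : X} (h : (y, z) ∈ (C.col x x).1) :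
    y = z := by
  obtain ⟨T, hT, hU⟩ := C.diagonal_union
  have hx : (x, x) ∈ ⋃₀ T := by rw [hU]; rfl
  obtain ⟨t, htT, hxt⟩ := hx
  have : C.col x x = ⟨t, hT htT⟩ := (C.col_eq_iff x x _).2 hxt
  have h2 : (y, z) ∈ t := by rw [this] at h; exact h
  have h3 : (y, z) ∈ ⋃₀ T := ⟨t, htT, h2⟩
  rw [hU] at h3
  exact h3

/-- If `(x, y)` and `(x', y')` have the same color then so do `(x, x)` and `(x', x')`. -/
theorem col_src (C : CoherentConfiguration X) {x y x' y' : X} (h : C.col x y = C.col x' y') :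
    C.col x x = C.col x' x' := by
  have h1 := C.p_eq (C.col x x) (C.col x y) (C.col x y) (C.mem_col x y)
  have h2 := C.p_eq (C.col x x) (C.col x y) (C.col x y) (x := x') (y := y')
    (by rw [h]; exact C.mem_col x' y')
  have h3 : Nat.card {z : X // (x, z) ∈ (C.col x x).1 ∧ (z, y) ∈ (C.col x y).1} ≠ 0 := by
    have : Nat.card {z : X // (x, z) ∈ (C.col x x).1 ∧ (z, y) ∈ (C.col x y).1} = 1 := by
      rw [Nat.card_eq_one_iff_unique]
      refine ⟨⟨fun u v => Subtype.ext ?_⟩, ⟨⟨x, C.mem_col x x, C.mem_col x y⟩⟩⟩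
      rw [← C.diag_of_mem u.2.1, ← C.diag_of_mem v.2.1]
    rw [this]; exact one_ne_zero
  rw [← h1, h2] at h3
  have h4 : Nonempty {z : X // (x', z) ∈ (C.col x x).1 ∧ (z, y') ∈ (C.col x y).1} := by
    by_contra hne
    rw [not_nonempty_iff] at hne
    exact h3 (Nat.card_of_isEmpty)
  obtain ⟨z, hz1, -⟩ := h4
  have hz : x' = z := C.diag_of_mem hz1
  subst hz
  exact ((C.col_eq_iff x' x' _).2 hz1).symm

/-- If `(x, y)` and `(x', y')` have the same color then so do `(y, y)` and `(y', y')`. -/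
theorem col_tgt (C : CoherentConfiguration X) {x y x' y' : X} (h : C.col x y = C.col x' y') :
    C.col y y = C.col y' y' := by
  have h1 := C.p_eq (C.col x y) (C.col y y) (C.col x y) (C.mem_col x y)
  have h2 := C.p_eq (C.col x y) (C.col y y) (C.col x y) (x := x') (y := y')
    (by rw [h]; exact C.mem_col x' y')
  have h3 : Nat.card {z : X // (x, z) ∈ (C.col x y).1 ∧ (z, y) ∈ (C.col y y).1} ≠ 0 := by
    have : Nat.card {z : X // (x, z) ∈ (C.col x y).1 ∧ (z, y) ∈ (C.col y y).1} = 1 := by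
      rw [Nat.card_eq_one_iff_unique]
      refine ⟨⟨fun u v => Subtype.ext ?_⟩, ⟨⟨y, C.mem_col x y, C.mem_col y y⟩⟩⟩
      rw [C.diag_of_mem u.2.2, C.diag_of_mem v.2.2]
    rw [this]; exact one_ne_zero
  rw [← h1, h2] at h3
  have h4 : Nonempty {z : X // (x', z) ∈ (C.col x y).1 ∧ (z, y') ∈ (C.col y y).1} := by
    by_contra hne
    rw [not_nonempty_iff] at hne
    exact h3 (Nat.card_of_isEmpty)
  obtain ⟨z, -, hz2⟩ := h4
  have hz : z = y' := C.diag_of_mem hz2
  subst hz
  exact ((C.col_eq_iff z z _).2 hz2).symm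

/-- The source fibre (a diagonal color) of a color. -/
noncomputable def src (C : CoherentConfiguration X) (a : C.S) : C.S :=
  C.col (C.rep a).1 (C.rep a).1

/-- The target fibre (a diagonal color) of a color. -/
noncomputable def tgt (C : CoherentConfiguration X) (a : C.S) : C.S :=
  C.col (C.rep a).2 (C.rep a).2

theorem col_rep (C : CoherentConfiguration X) (a : C.S) :
    C.col (C.rep a).1 (C.rep a).2 = a :=
  (C.col_eq_iff _ _ _).2 (C.rep_mem a)

theorem src_col (C : CoherentConfiguration X) (x y : X) : C.src (C.col x y) = C.col x x :=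
  C.col_src (C.col_rep (C.col x y))

theorem tgt_col (C : CoherentConfiguration X) (x y : X) : C.tgt (C.col x y) = C.col y y :=
  C.col_tgt (C.col_rep (C.col x y))


/-- The transpose of a color. -/
def tr (C : CoherentConfiguration X) (a : C.S) : C.S :=
  ⟨{e : X × X | (e.2, e.1) ∈ a.1}, C.transpose_mem a.1 a.2⟩

theorem k_eq (C : CoherentConfiguration X) (a : C.S) {x : X} (hx : ∃ y, (x, y) ∈ a.1) :
    C.k a = Nat.card {y : X // (x, y) ∈ a.1} := by
  obtain ⟨y, hy⟩ := hx
  have key : ∀ x : X, Nat.card {z : X // (x, z) ∈ a.1 ∧ (z, x) ∈ (C.tr a).1} =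
      Nat.card {y : X // (x, y) ∈ a.1} := by
    intro x
    apply Nat.card_congr
    apply Equiv.subtypeEquivRight
    intro z
    exact ⟨fun h => h.1, fun h => ⟨h, h⟩⟩
  have h1 := C.p_eq a (C.tr a) (C.col x x) (C.mem_col x x)
  have h2 := C.p_eq a (C.tr a) (C.col x x) (x := (C.rep a).1) (y := (C.rep a).1) (by
    rw [← C.col_eq_iff]
    exact C.col_src ((C.col_rep a).trans ((C.col_eq_iff x y a).2 hy).symm))
  rw [key] at h1 h2
  rw [← h1, h2]
  rfl

theorem k_pos [Finite X] (C : CoherentConfiguration X) (a : C.S) : 0 < C.k a := by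
  have : Nonempty {y : X // ((C.rep a).1, y) ∈ a.1} := ⟨⟨(C.rep a).2, C.rep_mem a⟩⟩
  exact Nat.card_pos

section sums

variable [Fintype X] (C : CoherentConfiguration X)

open Classical in
theorem card_col (x : X) (a : C.S) :
    ((Finset.univ.filter (fun y : X => C.col x y = a)).card : ℝ) =
      if C.src a = C.col x x then (C.k a : ℝ) else 0 := by
  by_cases h : ∃ y, (x, y) ∈ a.1
  · have hk := C.k_eq a h
    obtain ⟨y, hy⟩ := h
    have hya : C.col x y = a := (C.col_eq_iff x y a).2 hy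
    rw [if_pos (by rw [← hya, C.src_col]), hk, Nat.card_eq_fintype_card,
      Fintype.card_subtype]
    congr 2
    ext z
    simp [C.col_eq_iff]
  · have h0 : (Finset.univ.filter (fun y : X => C.col x y = a)) = ∅ := by
      rw [Finset.filter_eq_empty_iff]
      intro y _ hy
      exact h ⟨y, (C.col_eq_iff x y a).1 hy⟩
    rw [h0, if_neg, Finset.card_empty, Nat.cast_zero]
    intro hs
    -- `(x, x)` has the color `src a`
    have h1 := C.p_eq a (C.tr a) (C.src a) (x := (C.rep a).1) (y := (C.rep a).1)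
      (C.mem_col _ _)
    have h2 := C.p_eq a (C.tr a) (C.src a) (x := x) (y := x)
      (by rw [hs]; exact C.mem_col x x)
    rw [h1] at h2
    have h3 : 0 < Nat.card {z : X // ((C.rep a).1, z) ∈ a.1 ∧ (z, (C.rep a).1) ∈ (C.tr a).1} := by
      have : Nonempty {z : X // ((C.rep a).1, z) ∈ a.1 ∧ (z, (C.rep a).1) ∈ (C.tr a).1} :=
        ⟨⟨(C.rep a).2, C.rep_mem a, C.rep_mem a⟩⟩
      exact Nat.card_pos
    rw [h2] at h3
    obtain ⟨z, hz, -⟩ := (Nat.card_pos_iff.1 h3).1
    exact h ⟨z, hz⟩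

open Classical in
/-- Summing a function of the color over a row. -/
theorem sum_row (x : X) (f : C.S → ℝ) :
    ∑ y : X, f (C.col x y) = ∑ a : C.S, if C.src a = C.col x x then (C.k a : ℝ) * f a else 0 := by
  have h := Finset.sum_fiberwise (s := (Finset.univ : Finset X)) (g := fun y => C.col x y)
    (f := fun y => f (C.col x y))
  rw [← h]
  apply Finset.sum_congr rfl
  intro a _
  have : ∑ i ∈ Finset.univ.filter (fun y : X => C.col x y = a), f (C.col x i) =
      ∑ i ∈ Finset.univ.filter (fun y : X => C.col x y = a), f a := by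
    apply Finset.sum_congr rfl
    intro i hi
    rw [(Finset.mem_filter.1 hi).2]
  rw [this, Finset.sum_const, nsmul_eq_mul, C.card_col]
  split_ifs <;> simp

open Classical in
/-- Summing a function of two colors over the paths from `x` to `y`. -/
theorem sum_path (x y : X) (g : C.S → C.S → ℝ) :
    ∑ z : X, g (C.col x z) (C.col z y) =
      ∑ a : C.S, ∑ b : C.S, (C.p a b (C.col x y) : ℝ) * g a b := by
  have h := Finset.sum_fiberwise (s := (Finset.univ : Finset X))
    (g := fun z => (C.col x z, C.col z y)) (f := fun z => g (C.col x z) (C.col z y))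
  rw [← h, Fintype.sum_prod_type]
  apply Finset.sum_congr rfl
  intro a _
  apply Finset.sum_congr rfl
  intro b _
  have : ∑ i ∈ Finset.univ.filter (fun z : X => (C.col x z, C.col z y) = (a, b)),
        g (C.col x i) (C.col i y) =
      ∑ i ∈ Finset.univ.filter (fun z : X => (C.col x z, C.col z y) = (a, b)), g a b := by
    apply Finset.sum_congr rfl
    intro i hi
    have := (Finset.mem_filter.1 hi).2
    rw [Prod.mk.injEq] at this
    rw [this.1, this.2]
  rw [this, Finset.sum_const, nsmul_eq_mul, C.p_eq a b (C.col x y) (C.mem_col x y),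
    Nat.card_eq_fintype_card, Fintype.card_subtype]
  congr 3
  ext z
  simp [C.col_eq_iff]

omit [Fintype X] in
theorem p_ne_zero {a b c : C.S} (h : C.p a b c ≠ 0) :
    C.src a = C.src c ∧ C.tgt b = C.tgt c ∧ C.src b = C.tgt a := by
  have h4 : Nonempty {z : X // ((C.rep c).1, z) ∈ a.1 ∧ (z, (C.rep c).2) ∈ b.1} := by
    by_contra hne
    rw [not_nonempty_iff] at hne
    exact h (Nat.card_of_isEmpty)
  obtain ⟨z, hz1, hz2⟩ := h4
  rw [← C.col_eq_iff] at hz1 hz2
  have hc := C.col_rep c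
  refine ⟨?_, ?_, ?_⟩
  · rw [← hz1, C.src_col, ← hc, C.src_col, hc]
  · rw [← hz2, C.tgt_col, ← hc, C.tgt_col, hc]
  · rw [← hz1, ← hz2, C.src_col, C.tgt_col]

open Classical in
/-- `∑_b k_b p^b_{pq} = k_p k_q` for composable `p`, `q`. -/
theorem sum_k_mul_p (p q : C.S) :
    ∑ b : C.S, (C.k b : ℝ) * (C.p p q b : ℝ) =
      if C.src q = C.tgt p then (C.k p : ℝ) * (C.k q : ℝ) else 0 := by
  set x := (C.rep p).1 with hx
  have hxp : C.col x x = C.src p := rfl
  -- count paths
  have h1 : ∑ y : X, ∑ z : X, (if C.col x z = p then (1 : ℝ) else 0) *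
      (if C.col z y = q then (1 : ℝ) else 0) = ∑ b : C.S, (C.k b : ℝ) * (C.p p q b : ℝ) := by
    have : ∀ y : X, ∑ z : X, (if C.col x z = p then (1 : ℝ) else 0) *
        (if C.col z y = q then (1 : ℝ) else 0) = (C.p p q (C.col x y) : ℝ) := by
      intro y
      rw [C.sum_path x y (fun a b => (if a = p then (1 : ℝ) else 0) * (if b = q then (1 : ℝ) else 0))]
      simp
    simp_rw [this]
    rw [C.sum_row x (fun b => (C.p p q b : ℝ))]
    apply Finset.sum_congr rfl
    intro b _
    split_ifs with hb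
    · rfl
    · by_cases hp : C.p p q b = 0
      · rw [hp]; simp
      · exact absurd ((C.p_ne_zero hp).1.symm.trans hxp.symm) hb
  rw [← h1, Finset.sum_comm]
  have h2 : ∀ z : X, ∑ y : X, (if C.col x z = p then (1 : ℝ) else 0) *
      (if C.col z y = q then (1 : ℝ) else 0) =
      (if C.col x z = p then (1 : ℝ) else 0) * (if C.src q = C.tgt p then (C.k q : ℝ) else 0) := by
    intro z
    rw [← Finset.mul_sum]
    by_cases hz : C.col x z = p
    · rw [if_pos hz]
      congr 1
      rw [Finset.sum_boole, C.card_col z q, ← hz, C.tgt_col]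
    · rw [if_neg hz]; simp
  simp_rw [h2]
  rw [← Finset.sum_mul, Finset.sum_boole, C.card_col x p, if_pos hxp.symm]
  split_ifs <;> simp

open Classical in
theorem sum_p (a : C.S) :
    ∑ p : C.S, ∑ q : C.S, (C.p p q a : ℝ) = (Fintype.card X : ℝ) := by
  have h := C.sum_path (C.rep a).1 (C.rep a).2 (fun _ _ => (1 : ℝ))
  rw [C.col_rep a] at h
  simp only [mul_one] at h
  rw [← h]
  simp

/-- number of points in the fibre `i` -/
noncomputable def fib (i : C.S) : ℝ := by
  classical exact ((Finset.univ.filter (fun y : X => C.col y y = i)).card : ℝ)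

open Classical in
theorem fib_def (i : C.S) :
    C.fib i = ((Finset.univ.filter (fun y : X => C.col y y = i)).card : ℝ) := by
  unfold fib
  congr

open Classical in
/-- the positive eigenvector of the block `(i, k)` -/
noncomputable def w (i k : C.S) (b : C.S) : ℝ :=
  if C.src b = i ∧ C.tgt b = k then Real.sqrt (C.k b) else 0

theorem k_pos' (a : C.S) : (0 : ℝ) < C.k a := by exact_mod_cast C.k_pos a

theorem nab_mul_sqrt (b p q : C.S) :
    C.nab b p q * Real.sqrt (C.k b) =
      (C.k b : ℝ) * (C.p p q b : ℝ) / Real.sqrt ((C.k p : ℝ) * (C.k q : ℝ)) := by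
  unfold nab
  rw [Real.sqrt_div (C.k_pos' b).le]
  have : Real.sqrt (C.k b : ℝ) * Real.sqrt (C.k b : ℝ) = C.k b := Real.mul_self_sqrt (C.k_pos' b).le
  have h2 : (0 : ℝ) < Real.sqrt ((C.k p : ℝ) * (C.k q : ℝ)) :=
    Real.sqrt_pos.2 (mul_pos (C.k_pos' p) (C.k_pos' q))
  field_simp
  linear_combination (C.p p q b : ℝ) * this

theorem nab_mul_sqrt' (a p q : C.S) :
    C.nab a p q * Real.sqrt ((C.k p : ℝ) * (C.k q : ℝ)) =
      Real.sqrt (C.k a) * (C.p p q a : ℝ) := by
  unfold nab
  rw [Real.sqrt_div (C.k_pos' a).le]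
  have h2 : (0 : ℝ) < Real.sqrt ((C.k p : ℝ) * (C.k q : ℝ)) :=
    Real.sqrt_pos.2 (mul_pos (C.k_pos' p) (C.k_pos' q))
  field_simp

open Classical in
theorem sum_nab_w (i k p q : C.S) :
    ∑ b : C.S, C.nab b p q * C.w i k b =
      if C.src p = i ∧ C.tgt q = k ∧ C.src q = C.tgt p then
        Real.sqrt ((C.k p : ℝ) * (C.k q : ℝ)) else 0 := by
  have h2 : (0 : ℝ) < Real.sqrt ((C.k p : ℝ) * (C.k q : ℝ)) :=
    Real.sqrt_pos.2 (mul_pos (C.k_pos' p) (C.k_pos' q))
  have h3 : Real.sqrt ((C.k p : ℝ) * (C.k q : ℝ)) * Real.sqrt ((C.k p : ℝ) * (C.k q : ℝ)) =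
      (C.k p : ℝ) * (C.k q : ℝ) := Real.mul_self_sqrt (mul_pos (C.k_pos' p) (C.k_pos' q)).le
  have h : ∀ b : C.S, C.nab b p q * C.w i k b =
      if C.src p = i ∧ C.tgt q = k then
        ((C.k b : ℝ) * (C.p p q b : ℝ)) / Real.sqrt ((C.k p : ℝ) * (C.k q : ℝ)) else 0 := by
    intro b
    by_cases hp : C.p p q b = 0
    · have : C.nab b p q = 0 := by unfold nab; rw [hp]; simp
      rw [this, hp]; simp
    · obtain ⟨e1, e2, -⟩ := C.p_ne_zero hp
      unfold w
      rw [e1, e2]
      split_ifs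
      · rw [C.nab_mul_sqrt]
      · simp
  simp_rw [h]
  by_cases hik : C.src p = i ∧ C.tgt q = k
  · simp_rw [if_pos hik]
    rw [← Finset.sum_div, C.sum_k_mul_p]
    by_cases hs : C.src q = C.tgt p
    · rw [if_pos hs, if_pos ⟨hik.1, hik.2, hs⟩, div_eq_iff h2.ne', h3]
    · rw [if_neg hs, if_neg (fun h => hs h.2.2)]; simp
  · simp_rw [if_neg hik]
    rw [if_neg (fun h => hik ⟨h.1, h.2.1⟩)]
    simp

open Classical in
/-- `O w = n w` for the positive block vectors. -/
theorem sum_O_w (i k a : C.S) :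
    ∑ b : C.S, C.O a b * C.w i k b = (Fintype.card X : ℝ) * C.w i k a := by
  have h1 : ∑ b : C.S, C.O a b * C.w i k b =
      ∑ p : C.S, ∑ q : C.S, C.nab a p q * ∑ b : C.S, C.nab b p q * C.w i k b := by
    unfold O
    simp_rw [Finset.sum_mul, Finset.mul_sum]
    rw [Finset.sum_comm]
    apply Finset.sum_congr rfl
    intro p _
    rw [Finset.sum_comm]
    apply Finset.sum_congr rfl
    intro q _
    apply Finset.sum_congr rfl
    intro b _
    ring
  rw [h1]
  simp_rw [C.sum_nab_w]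
  have h2 : ∀ p q : C.S, C.nab a p q *
      (if C.src p = i ∧ C.tgt q = k ∧ C.src q = C.tgt p then
        Real.sqrt ((C.k p : ℝ) * (C.k q : ℝ)) else 0) = C.w i k a * (C.p p q a : ℝ) := by
    intro p q
    by_cases hp : C.p p q a = 0
    · have : C.nab a p q = 0 := by unfold nab; rw [hp]; simp
      rw [this, hp]; simp
    · obtain ⟨e1, e2, e3⟩ := C.p_ne_zero hp
      unfold w
      rw [← e1, ← e2]
      by_cases hik : C.src p = i ∧ C.tgt q = k
      · rw [if_pos hik, if_pos ⟨hik.1, hik.2, e3⟩, C.nab_mul_sqrt']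
      · rw [if_neg hik, if_neg (fun h => hik ⟨h.1, h.2.1⟩)]; simp
  simp_rw [h2]
  simp_rw [← Finset.mul_sum]
  rw [C.sum_p a, mul_comm]

theorem O_symm (a b : C.S) : C.O a b = C.O b a := by
  unfold O
  simp_rw [mul_comm]

open Classical in
theorem orth {v : C.S → ℝ} {μ : ℝ} (hv : ∀ a, ∑ b : C.S, C.O a b * v b = μ * v a)
    (hμ : μ ≠ (Fintype.card X : ℝ)) (i k : C.S) : ∑ a : C.S, C.w i k a * v a = 0 := by
  have h1 : ∑ a : C.S, C.w i k a * ∑ b : C.S, C.O a b * v b = μ * ∑ a : C.S, C.w i k a * v a := by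
    simp_rw [hv]
    rw [Finset.mul_sum]
    apply Finset.sum_congr rfl
    intro a _
    ring
  have h2 : ∑ a : C.S, C.w i k a * ∑ b : C.S, C.O a b * v b =
      (Fintype.card X : ℝ) * ∑ a : C.S, C.w i k a * v a := by
    simp_rw [Finset.mul_sum]
    rw [Finset.sum_comm]
    apply Finset.sum_congr rfl
    intro b _
    have := C.sum_O_w i k b
    have h3 : ∑ a : C.S, C.w i k a * (C.O a b * v b) = (∑ a : C.S, C.O b a * C.w i k a) * v b := by
      rw [Finset.sum_mul]
      apply Finset.sum_congr rfl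
      intro a _
      rw [C.O_symm a b]
      ring
    rw [h3, this]
    ring
  rw [h1] at h2
  have h3 : (μ - (Fintype.card X : ℝ)) * ∑ a : C.S, C.w i k a * v a = 0 := by
    rw [sub_mul, h2, sub_self]
  rcases mul_eq_zero.1 h3 with h | h
  · exact absurd (sub_eq_zero.1 h) hμ
  · exact h

open Classical in
theorem sum_fib_p (p a k : C.S) (hk : C.tgt p = k) :
    ∑ q : C.S, (if C.src q = k ∧ C.tgt q = k then (C.p p q a : ℝ) else 0) =
      if C.src a = C.src p ∧ C.tgt a = k then (C.k p : ℝ) else 0 := by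
  have h := C.sum_path (C.rep a).1 (C.rep a).2
    (fun p' q => if p' = p ∧ C.src q = k ∧ C.tgt q = k then (1 : ℝ) else 0)
  rw [C.col_rep a] at h
  have h1 : ∑ p' : C.S, ∑ q : C.S, (C.p p' q a : ℝ) *
      (if p' = p ∧ C.src q = k ∧ C.tgt q = k then (1 : ℝ) else 0) =
      ∑ q : C.S, (if C.src q = k ∧ C.tgt q = k then (C.p p q a : ℝ) else 0) := by
    rw [Finset.sum_eq_single p]
    · apply Finset.sum_congr rfl
      intro q _
      simp
    · intro p' _ hp'
      simp [hp']
    · simp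
  rw [h1] at h
  rw [← h]
  have h2 : ∀ z : X, (if C.col (C.rep a).1 z = p ∧ C.src (C.col z (C.rep a).2) = k ∧
      C.tgt (C.col z (C.rep a).2) = k then (1 : ℝ) else 0) =
      (if C.tgt a = k then (1 : ℝ) else 0) * (if C.col (C.rep a).1 z = p then (1 : ℝ) else 0) := by
    intro z
    rw [C.src_col, C.tgt_col]
    by_cases hz : C.col (C.rep a).1 z = p
    · have e1 : C.col z z = k := by rw [← hk, ← hz, C.tgt_col]
      simp only [hz, e1, true_and, if_true, mul_one]
      rfl
    · simp [hz]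
  simp_rw [h2]
  rw [← Finset.mul_sum, Finset.sum_boole, C.card_col]
  have e3 : (C.src p = C.col (C.rep a).1 (C.rep a).1) ↔ (C.src a = C.src p) := by
    constructor
    · intro h; exact h.symm
    · intro h; exact h.symm
  by_cases h5 : C.src a = C.src p
  · rw [if_pos (e3.2 h5)]
    by_cases h6 : C.tgt a = k
    · rw [if_pos h6, if_pos ⟨h5, h6⟩]; simp
    · rw [if_neg h6, if_neg (fun h => h6 h.2)]; simp
  · rw [if_neg (fun h => h5 (e3.1 h)), if_neg (fun (h : _ ∧ _) => h5 h.1)]; simp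

open Classical in
theorem fib_eq_row (i : C.S) (x : X) (hx : C.col x x = i) :
    ∑ q : C.S, (if C.src q = i ∧ C.tgt q = i then (C.k q : ℝ) else 0) = C.fib i := by
  have h := C.sum_row x (fun a => if C.tgt a = i then (1 : ℝ) else 0)
  simp_rw [C.tgt_col] at h
  rw [Finset.sum_boole, ← C.fib_def i] at h
  rw [h]
  apply Finset.sum_congr rfl
  intro q _
  rw [hx]
  by_cases h1 : C.src q = i <;> by_cases h2 : C.tgt q = i <;> simp [h1, h2]

omit [Fintype X] in
/-- The diagonal color has valency one. -/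
theorem k_diag (x : X) : C.k (C.col x x) = 1 := by
  rw [C.k_eq (C.col x x) ⟨x, C.mem_col x x⟩, Nat.card_eq_one_iff_unique]
  refine ⟨⟨fun u v => Subtype.ext ?_⟩, ⟨⟨x, C.mem_col x x⟩⟩⟩
  rw [← C.diag_of_mem u.2, ← C.diag_of_mem v.2]

open Classical in
theorem nab_diag (a p : C.S) : C.nab a p (C.tgt p) = if a = p then 1 else 0 := by
  have hk1 : C.k (C.tgt p) = 1 := C.k_diag _
  by_cases hp : C.p p (C.tgt p) a = 0
  · have hne : a ≠ p := by
      rintro rfl
      have h1 := C.p_eq a (C.tgt a) a (x := (C.rep a).1) (y := (C.rep a).2) (C.rep_mem a)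
      rw [hp] at h1
      have : 0 < Nat.card {z : X // ((C.rep a).1, z) ∈ a.1 ∧ (z, (C.rep a).2) ∈ (C.tgt a).1} := by
        have : Nonempty {z : X // ((C.rep a).1, z) ∈ a.1 ∧ (z, (C.rep a).2) ∈ (C.tgt a).1} :=
          ⟨⟨(C.rep a).2, C.rep_mem a, C.mem_col _ _⟩⟩
        exact Nat.card_pos
      omega
    rw [if_neg hne]
    unfold nab
    rw [hp]; simp
  · have h4 : Nonempty {z : X // ((C.rep a).1, z) ∈ p.1 ∧ (z, (C.rep a).2) ∈ (C.tgt p).1} := by
      by_contra hne
      rw [not_nonempty_iff] at hne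
      exact hp (Nat.card_of_isEmpty)
    obtain ⟨z, hz1, hz2⟩ := h4
    have hz : z = (C.rep a).2 := C.diag_of_mem hz2
    subst hz
    have hap : a = p := by
      rw [← C.col_eq_iff] at hz1
      rw [← hz1, C.col_rep]
    subst hap
    rw [if_pos rfl]
    have h1 := C.p_eq a (C.tgt a) a (x := (C.rep a).1) (y := (C.rep a).2) (C.rep_mem a)
    have h2 : Nat.card {z : X // ((C.rep a).1, z) ∈ a.1 ∧ (z, (C.rep a).2) ∈ (C.tgt a).1} = 1 := by
      rw [Nat.card_eq_one_iff_unique]
      refine ⟨⟨fun u v => Subtype.ext ?_⟩, ⟨⟨(C.rep a).2, C.rep_mem a, C.mem_col _ _⟩⟩⟩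
      rw [C.diag_of_mem u.2.2, C.diag_of_mem v.2.2]
    unfold nab
    rw [h1, h2, hk1]
    have := C.k_pos' a
    simp [this.ne']

open Classical in
/-- The test vector of the fibre `i`. -/
noncomputable def tau (i q : C.S) : ℝ :=
  if C.src q = i ∧ C.tgt q = i then
    (if q = i then Real.sqrt (C.fib i) else 0) - Real.sqrt (C.k q) / Real.sqrt (C.fib i) else 0

theorem fib_pos (x : X) : 0 < C.fib (C.col x x) := by
  classical
  rw [C.fib_def]
  have : 0 < (Finset.univ.filter (fun y : X => C.col y y = C.col x x)).card :=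
    Finset.card_pos.2 ⟨x, by simp⟩
  exact_mod_cast this

theorem fib_le (i : C.S) : C.fib i ≤ (Fintype.card X : ℝ) := by
  classical
  rw [C.fib_def]
  exact_mod_cast Finset.card_le_univ _

open Classical in
theorem sum_tau_sq (x : X) :
    ∑ q : C.S, C.tau (C.col x x) q ^ 2 = C.fib (C.col x x) - 1 := by
  set i := C.col x x with hi
  have hpos : 0 < C.fib i := C.fib_pos x
  have hs : Real.sqrt (C.fib i) * Real.sqrt (C.fib i) = C.fib i := Real.mul_self_sqrt hpos.le
  have hs0 : 0 < Real.sqrt (C.fib i) := Real.sqrt_pos.2 hpos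
  have hsi : C.src i = i := by rw [hi]; exact C.src_col x x
  have hti : C.tgt i = i := by rw [hi]; exact C.tgt_col x x
  have hki : C.k i = 1 := C.k_diag x
  have h : ∀ q : C.S, C.tau i q ^ 2 =
      (if q = i then C.fib i - 2 else 0) +
        (1 / C.fib i) * (if C.src q = i ∧ C.tgt q = i then (C.k q : ℝ) else 0) := by
    intro q
    unfold tau
    by_cases hq : q = i
    · rw [hq, if_pos ⟨hsi, hti⟩, if_pos rfl, if_pos rfl, if_pos ⟨hsi, hti⟩, hki]
      simp only [Nat.cast_one, Real.sqrt_one]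
      have h1 : Real.sqrt (C.fib i) ≠ 0 := hs0.ne'
      have h2 : C.fib i ≠ 0 := hpos.ne'
      have h4 : (Real.sqrt (C.fib i) - 1 / Real.sqrt (C.fib i)) ^ 2 =
        Real.sqrt (C.fib i) * Real.sqrt (C.fib i) - 2 +
          1 / (Real.sqrt (C.fib i) * Real.sqrt (C.fib i)) := by
        have h5 : Real.sqrt (C.fib i) * (1 / Real.sqrt (C.fib i)) = 1 := by
          rw [mul_one_div, div_self h1]
        have h6 : 1 / (Real.sqrt (C.fib i) * Real.sqrt (C.fib i)) =
          (1 / Real.sqrt (C.fib i)) * (1 / Real.sqrt (C.fib i)) := by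
          rw [one_div_mul_one_div]
        rw [h6]
        linear_combination (-2 : ℝ) * h5
      rw [h4, hs, mul_one]
    · rw [if_neg hq, if_neg hq]
      by_cases h2 : C.src q = i ∧ C.tgt q = i
      · rw [if_pos h2, if_pos h2]
        have h5 : Real.sqrt (C.k q : ℝ) * Real.sqrt (C.k q : ℝ) = C.k q :=
          Real.mul_self_sqrt (C.k_pos' q).le
        have : (0 - Real.sqrt (C.k q : ℝ) / Real.sqrt (C.fib i)) ^ 2 =
          (Real.sqrt (C.k q : ℝ) * Real.sqrt (C.k q : ℝ)) /
            (Real.sqrt (C.fib i) * Real.sqrt (C.fib i)) := by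
          ring
        rw [this, h5, hs]
        ring
      · rw [if_neg h2, if_neg h2]; simp
  simp_rw [h]
  rw [Finset.sum_add_distrib, ← Finset.mul_sum, C.fib_eq_row i x rfl]
  simp only [Finset.sum_ite_eq', Finset.mem_univ, if_true]
  have h2 : C.fib i ≠ 0 := hpos.ne'
  field_simp
  ring

open Classical in
/-- The test identity: `∑_q τ_q U(p, q) = √n_k v_p` for `v` orthogonal to the positive vector of
the block of `p`. -/
theorem sum_tau_U {v : C.S → ℝ} (p : C.S)
    (horth : ∑ a : C.S, C.w (C.src p) (C.tgt p) a * v a = 0) :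
    ∑ q : C.S, C.tau (C.tgt p) q * (∑ a : C.S, C.nab a p q * v a) =
      Real.sqrt (C.fib (C.tgt p)) * v p := by
  set i := C.tgt p with hi
  have hix : C.col (C.rep p).2 (C.rep p).2 = i := rfl
  have hpos : 0 < C.fib i := C.fib_pos (C.rep p).2
  have hs : Real.sqrt (C.fib i) * Real.sqrt (C.fib i) = C.fib i := Real.mul_self_sqrt hpos.le
  have hs0 : 0 < Real.sqrt (C.fib i) := Real.sqrt_pos.2 hpos
  have hsi : C.src i = i := by rw [← hix]; exact C.src_col _ _
  have hti : C.tgt i = i := by rw [← hix]; exact C.tgt_col _ _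
  have hkp : 0 < Real.sqrt (C.k p : ℝ) := Real.sqrt_pos.2 (C.k_pos' p)
  -- swap the sums
  have h1 : ∑ q : C.S, C.tau i q * (∑ a : C.S, C.nab a p q * v a) =
      ∑ a : C.S, (∑ q : C.S, C.tau i q * C.nab a p q) * v a := by
    simp_rw [Finset.mul_sum, Finset.sum_mul]
    rw [Finset.sum_comm]
    apply Finset.sum_congr rfl
    intro a _
    apply Finset.sum_congr rfl
    intro q _
    ring
  -- inner sum
  have h2 : ∀ a : C.S, ∑ q : C.S, C.tau i q * C.nab a p q =
      Real.sqrt (C.fib i) * (if a = p then 1 else 0) -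
        Real.sqrt (C.k p) / Real.sqrt (C.fib i) * C.w (C.src p) i a := by
    intro a
    have h3 : ∀ q : C.S, C.tau i q * C.nab a p q =
        (if q = i then Real.sqrt (C.fib i) * C.nab a p i else 0) -
          (Real.sqrt (C.k a) / (Real.sqrt (C.k p) * Real.sqrt (C.fib i))) *
            (if C.src q = i ∧ C.tgt q = i then (C.p p q a : ℝ) else 0) := by
      intro q
      have h4 : Real.sqrt (C.k q : ℝ) * C.nab a p q =
          Real.sqrt (C.k a) / Real.sqrt (C.k p) * (C.p p q a : ℝ) := by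
        unfold nab
        rw [Real.sqrt_div (C.k_pos' a).le, Real.sqrt_mul (C.k_pos' p).le]
        have hkq : 0 < Real.sqrt (C.k q : ℝ) := Real.sqrt_pos.2 (C.k_pos' q)
        field_simp
      unfold tau
      by_cases h5 : C.src q = i ∧ C.tgt q = i
      · rw [if_pos h5, if_pos h5]
        have h6 : Real.sqrt (C.k a) / (Real.sqrt (C.k p) * Real.sqrt (C.fib i)) *
            (C.p p q a : ℝ) = Real.sqrt (C.k q : ℝ) * C.nab a p q / Real.sqrt (C.fib i) := by
          rw [h4]; field_simp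
        rw [h6]
        by_cases h7 : q = i
        · rw [if_pos h7, if_pos h7, ← h7]; ring
        · rw [if_neg h7, if_neg h7]; ring
      · rw [if_neg h5, if_neg h5]
        have h7 : q ≠ i := by
          rintro rfl
          exact h5 ⟨hsi, hti⟩
        rw [if_neg h7]; ring
    simp_rw [h3]
    rw [Finset.sum_sub_distrib, ← Finset.mul_sum, C.sum_fib_p p a i rfl]
    simp only [Finset.sum_ite_eq', Finset.mem_univ, if_true]
    rw [C.nab_diag a p]
    congr 1
    unfold w
    have h8 : Real.sqrt (C.k p : ℝ) * Real.sqrt (C.k p : ℝ) = C.k p :=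
      Real.mul_self_sqrt (C.k_pos' p).le
    split_ifs with h9
    · have h11 : Real.sqrt (C.k a) / (Real.sqrt (C.k p) * Real.sqrt (C.fib i)) * (C.k p : ℝ) =
        Real.sqrt (C.k a) / (Real.sqrt (C.k p) * Real.sqrt (C.fib i)) *
          (Real.sqrt (C.k p : ℝ) * Real.sqrt (C.k p : ℝ)) := by rw [h8]
      rw [h11]
      field_simp
    · simp
  rw [h1]
  simp_rw [h2, sub_mul]
  rw [Finset.sum_sub_distrib]
  have h10 : ∑ x : C.S, Real.sqrt (C.k p) / Real.sqrt (C.fib i) * C.w (C.src p) i x * v x = 0 := by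
    simp_rw [mul_assoc]
    rw [← Finset.mul_sum, horth, mul_zero]
  rw [h10, sub_zero]
  simp

open Classical in
theorem eigenvalue_bound (hn : 2 ≤ Fintype.card X) {μ : ℝ} {v : C.S → ℝ} (hv0 : v ≠ 0)
    (hv : ∀ a, ∑ b : C.S, C.O a b * v b = μ * v a) :
    (Fintype.card X : ℝ) / ((Fintype.card X : ℝ) - 1) ≤ μ := by
  have hn' : (2 : ℝ) ≤ (Fintype.card X : ℝ) := by exact_mod_cast hn
  set n : ℝ := (Fintype.card X : ℝ) with hndef
  have hn1 : 0 < n - 1 := by linarith
  by_cases hμ : μ = n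
  · rw [hμ, div_le_iff₀ hn1]
    nlinarith
  -- the main case
  set U : C.S → C.S → ℝ := fun p q => ∑ a : C.S, C.nab a p q * v a with hU
  have hquad : μ * ∑ a : C.S, v a ^ 2 = ∑ p : C.S, ∑ q : C.S, U p q ^ 2 := by
    have h1 : μ * ∑ a : C.S, v a ^ 2 = ∑ a : C.S, v a * ∑ b : C.S, C.O a b * v b := by
      simp_rw [hv]
      rw [Finset.mul_sum]
      apply Finset.sum_congr rfl
      intro a _
      ring
    rw [h1]
    have h2 : ∀ p q : C.S, U p q ^ 2 =
        ∑ a : C.S, ∑ b : C.S, v a * (C.nab a p q * C.nab b p q * v b) := by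
      intro p q
      rw [sq, hU]
      simp only
      rw [Finset.sum_mul_sum]
      apply Finset.sum_congr rfl
      intro a _
      apply Finset.sum_congr rfl
      intro b _
      ring
    simp_rw [h2]
    unfold O
    simp_rw [Finset.sum_mul, Finset.mul_sum]
    -- ∑ a b p q = ∑ p q a b
    have h3 : ∀ a : C.S, ∑ b : C.S, ∑ p : C.S, ∑ q : C.S, v a * (C.nab a p q * C.nab b p q * v b) =
        ∑ p : C.S, ∑ q : C.S, ∑ b : C.S, v a * (C.nab a p q * C.nab b p q * v b) := by
      intro a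
      rw [Finset.sum_comm]
      apply Finset.sum_congr rfl
      intro p _
      rw [Finset.sum_comm]
    simp_rw [h3]
    rw [Finset.sum_comm]
    apply Finset.sum_congr rfl
    intro p _
    rw [Finset.sum_comm]
  -- the bound for one row `p`
  have hrow : ∀ p : C.S, n * v p ^ 2 ≤ (n - 1) * ∑ q : C.S, U p q ^ 2 := by
    intro p
    have horth := C.orth hv hμ (C.src p) (C.tgt p)
    have h1 := C.sum_tau_U p horth
    have h2 := Finset.sum_mul_sq_le_sq_mul_sq Finset.univ (fun q => C.tau (C.tgt p) q) (U p)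
    rw [h1] at h2
    have h3 : ∑ q : C.S, C.tau (C.tgt p) q ^ 2 = C.fib (C.tgt p) - 1 := C.sum_tau_sq (C.rep p).2
    have h5 : 0 < C.fib (C.tgt p) := C.fib_pos (C.rep p).2
    rw [h3, mul_pow, Real.sq_sqrt h5.le] at h2
    have h4 : C.fib (C.tgt p) ≤ n := C.fib_le _
    have h6 : 0 ≤ ∑ q : C.S, U p q ^ 2 := Finset.sum_nonneg (fun q _ => sq_nonneg _)
    set f := C.fib (C.tgt p) with hf
    set T := ∑ q : C.S, U p q ^ 2 with hT
    have h7 : v p ^ 2 ≤ T := by
      have : f * v p ^ 2 ≤ f * T := by nlinarith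
      exact le_of_mul_le_mul_left this h5
    nlinarith
  have hsum : n * ∑ a : C.S, v a ^ 2 ≤ (n - 1) * (μ * ∑ a : C.S, v a ^ 2) := by
    rw [hquad, Finset.mul_sum, Finset.mul_sum]
    exact Finset.sum_le_sum (fun p _ => hrow p)
  have hpos : 0 < ∑ a : C.S, v a ^ 2 := by
    obtain ⟨a, ha⟩ := Function.ne_iff.1 hv0
    exact Finset.sum_pos' (fun _ _ => sq_nonneg _) ⟨a, Finset.mem_univ a, by
      have : v a ≠ 0 := ha
      positivity⟩
  rw [div_le_iff₀ hn1]
  nlinarith [le_of_mul_le_mul_right (by linarith : n * ∑ a : C.S, v a ^ 2 ≤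
    ((n - 1) * μ) * ∑ a : C.S, v a ^ 2) hpos]

end sums

end CoherentConfiguration

end Pool.Agent.Lib_MP_d5c33c_co
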